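import Pool.Agent.Helper40.Ct.Goals

set_option autoImplicit false

open Finset

namespace Pool.Agent.Helper49.Ct

open Pool.Agent.Helper40.Ct

theorem pf_congr {α β : Type} : ∀ (E : List β) (g g' : List (α × β) → ℤ) (X : List α),
    (∀ l : List (α × β), (∀ q ∈ l, q.1 ∈ X ∧ q.2 ∈ E) → g l = g' l) → Pf E g X = Pf E g' X
  | [], g, g', X, _ => by simp [Pf]
  | [e], g, g', [], _ => by simp [Pf]
  | [e], g, g', x :: xs, h => by
    simp only [Pf]
    apply h
    intro q hq
    rw [List.mem_map] at hq
    obtain ⟨y, hy, rfl⟩ := hq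
    exact ⟨hy, by simp⟩
  | e :: e' :: es, g, g', X, h => by
    simp only [Pf]
    refine sum_congr rfl fun i _ => ?_
    congr 1
    refine pf_congr (e' :: es) _ _ _ fun l hl => ?_
    apply h
    intro q hq
    rw [List.mem_append] at hq
    rcases hq with hq | hq
    · rw [List.mem_map] at hq
      obtain ⟨y, hy, rfl⟩ := hq
      exact ⟨List.mem_of_mem_take hy, by simp⟩
    · exact ⟨List.mem_of_mem_drop (hl q hq).1, List.mem_cons_of_mem _ (hl q hq).2⟩

theorem canc0 : CANC := by
  intro d r α u X E i a hE
  let g : Fac d r → Fac d r := fun π => Function.update π i (π i * Equiv.swap 0 a.succ)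
  have hsw : (0 : Fin (r + 1)) ≠ a.succ := (Fin.succ_ne_zero a).symm
  have hg1 : ∀ π, sg (g π) = - sg π := by
    intro π
    have h1 : sg (g π) = ((Equiv.Perm.sign (g π i) : ℤˣ) : ℤ) *
        ∏ j ∈ univ.erase i, ((Equiv.Perm.sign (g π j) : ℤˣ) : ℤ) := by
      unfold sg
      exact (mul_prod_erase univ _ (mem_univ i)).symm
    have h2 : sg π = ((Equiv.Perm.sign (π i) : ℤˣ) : ℤ) *
        ∏ j ∈ univ.erase i, ((Equiv.Perm.sign (π j) : ℤˣ) : ℤ) := by
      unfold sg
      exact (mul_prod_erase univ _ (mem_univ i)).symm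
    rw [h1, h2]
    have h3 : ∏ j ∈ univ.erase i, ((Equiv.Perm.sign (g π j) : ℤˣ) : ℤ) =
        ∏ j ∈ univ.erase i, ((Equiv.Perm.sign (π j) : ℤˣ) : ℤ) := by
      refine prod_congr rfl fun j hj => ?_
      have : g π j = π j := Function.update_of_ne (mem_erase.1 hj).1 _ _
      rw [this]
    have h4 : g π i = π i * Equiv.swap 0 a.succ := Function.update_self _ _ _
    rw [h3, h4, Equiv.Perm.sign_mul, Equiv.Perm.sign_swap hsw]
    push_cast
    ring
  have hg2 : ∀ π, ∀ e : El d r, e ≠ some (i, a) → part (g π) e = part π e := by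
    intro π e he
    match e, he with
    | none, _ => rfl
    | some (i', a'), he =>
      change g π i' a'.succ = π i' a'.succ
      by_cases hi : i' = i
      · subst hi
        have h4 : g π i' = π i' * Equiv.swap 0 a.succ := Function.update_self _ _ _
        have ha : a' ≠ a := fun h => he (by rw [h])
        rw [h4, Equiv.Perm.mul_apply, Equiv.swap_apply_of_ne_of_ne (Fin.succ_ne_zero a')
          (fun h => ha (Fin.succ_injective _ h))]
      · have : g π i' = π i' := Function.update_of_ne hi _ _
        rw [this]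
  have hg3 : ∀ π, Pf E (fpi u (g π)) X = Pf E (fpi u π) X := by
    intro π
    refine pf_congr E _ _ X fun l hl => ?_
    unfold fpi
    congr 1
    refine List.map_congr_left fun q hq => ?_
    have hne : q.2 ≠ some (i, a) := fun h => hE (h ▸ (hl q hq).2)
    unfold enc
    funext s
    rw [hg2 π q.2 hne]
  refine sum_involution (fun π _ => g π) ?_ ?_ ?_ ?_
  · intro π _
    rw [hg1, hg3]
    ring
  · intro π _ _ h
    have h4 : g π i = π i * Equiv.swap 0 a.succ := Function.update_self _ _ _
    rw [h] at h4
    have h5 : Equiv.swap (0 : Fin (r + 1)) a.succ = 1 := by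
      have := congrArg (fun x => (π i)⁻¹ * x) h4
      simpa using this.symm
    exact hsw (Equiv.swap_eq_one_iff.1 h5)
  · intro π _
    exact mem_univ _
  · intro π _
    funext j
    by_cases hj : j = i
    · subst hj
      simp [g, mul_assoc]
    · simp [g, Function.update_of_ne hj]

theorem canc : PATHS → CANC := fun _ => canc0

end Pool.Agent.Helper49.Ct
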